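import Pool.Agent.MT100A.Defs
import Pool.Agent.MT100G.Stmts

/-! Statements of the modules of MT100-A.  Paper: PAPER_MT100A.md. -/

set_option autoImplicit false

namespace Pool.Agent.MT100A

open Matrix Polynomial Pool.Agent.MT100 Pool.Agent.MT100G Pool.Agent.Helper78_MT

universe u v

/-! ### Monodromy -/

/-- MOA: the monodromy matrices form a group -/
def MoaStmt : Prop :=
  ∀ (d : Type) [Fintype d] [DecidableEq d] (F : Sys d) (U : Set ℂ),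
    (∀ a ∈ F.mo U, IsUnit a.det) ∧ (1 : Matrix d d ℂ) ∈ F.mo U ∧
    (∀ a ∈ F.mo U, ∀ b ∈ F.mo U, a * b ∈ F.mo U) ∧ ∀ a ∈ F.mo U, a⁻¹ ∈ F.mo U

/-- HMN: the monodromy group is the monodromy group of a half plane -/
def HmnStmt : Prop :=
  ∀ (d : Type) [Fintype d] [DecidableEq d] (F : Sys d),
    ∃ m0 : ℝ, ∀ g ∈ F.mo Set.univ, g ∈ F.mo {w | m0 < w.re}

/-- HTR: the monodromy group of a far half plane is trivial -/
def HtrStmt : Prop :=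
  ∀ (d : Type) [Fintype d] [DecidableEq d] (F : Sys d),
    ∃ m1 : ℝ, ∀ g ∈ F.mo {w | m1 < w.re}, g = 1

/-- EXA: the exponentials of `N` are in the Zariski closure -/
def ExaStmt : Prop :=
  ∀ (d : Type) [Fintype d] [DecidableEq d] (F : Sys d) (s : ℂ), eN F.N s ∈ F.Zc

/-- KEA: simultaneous continuation along a chain inside `U` -/
def KeaStmt : Prop :=
  ∀ (d : Type) [Fintype d] [DecidableEq d] (F : Sys d) (ι : Type) [Fintype ι] (κ : ι → ℕ) (i : ι)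
    (m : ℝ), ∀ g ∈ F.mo {w | m < w.re}, ∃ t ∈ F.tp κ, t.1 i = g ∧ (0 ≤ m + κ i → t.2 = 0) ∧
      ∀ j, t.1 j ∈ F.mo {w | m + κ i - κ j < w.re}

/-- T1A: the tuples form a group -/
def T1aStmt : Prop :=
  ∀ (d : Type) [Fintype d] [DecidableEq d] (F : Sys d) (ι : Type) [Fintype ι] (κ : ι → ℕ),
    (∀ t ∈ F.tp κ, ∀ i, t.1 i ∈ F.mo Set.univ) ∧
    ((fun _ => 1, 0) : (ι → Matrix d d ℂ) × ℤ) ∈ F.tp κ ∧
    (∀ t ∈ F.tp κ, ∀ t' ∈ F.tp κ,
      ((fun i => t.1 i * t'.1 i, t.2 + t'.2) : (ι → Matrix d d ℂ) × ℤ) ∈ F.tp κ) ∧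
    ∀ t ∈ F.tp κ, ((fun i => (t.1 i)⁻¹, -t.2) : (ι → Matrix d d ℂ) × ℤ) ∈ F.tp κ

/-- TUA: for separated translates every element of the monodromy group is the component `i` of a
tuple whose components with smaller translates are trivial -/
def TuaStmt : Prop :=
  ∀ (d : Type) [Fintype d] [DecidableEq d] (F : Sys d), ∃ D : ℕ,
    ∀ (ι : Type) [Fintype ι] (κ : ι → ℕ), Sep D κ → ∀ (i : ι), ∀ g ∈ F.mo Set.univ,
      ∃ t ∈ F.tp κ, t.1 i = g ∧ t.2 = 0 ∧ ∀ j, κ j < κ i → t.1 j = 1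

/-! ### Relations -/

/-- PMA: permanence of relations under continuation -/
def PmaStmt : Prop :=
  ∀ (d : Type) [Fintype d] [DecidableEq d] (F : Sys d) (ι : Type) [Fintype ι] (κ : ι → ℕ),
    ∃ R0 : ℝ, ∀ Φ : MvPolynomial (Bool ⊕ (ι × d × d)) ℂ,
      (∀ᶠ w : ℝ in Filter.atTop, MvPolynomial.eval (vr (w : ℂ) (Complex.log w)
        fun i => YH F.H F.N ((w : ℂ) - κ i)) Φ = 0) →
      ∀ t ∈ F.tp κ, ∀ w : ℝ, R0 < w →
        MvPolynomial.eval (vr (w : ℂ) (Complex.log w + 2 * Real.pi * Complex.I * t.2)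
          fun i => YH F.H F.N ((w : ℂ) - κ i) * t.1 i) Φ = 0

/-- PSA: relations persist under the product of the Zariski closures -/
def PsaStmt : Prop :=
  ∀ (d : Type) [Fintype d] [DecidableEq d] (F : Sys d), ∃ D : ℕ,
    ∀ (ι : Type) [Fintype ι] [DecidableEq ι] (κ : ι → ℕ), Sep D κ →
    ∃ R0 : ℝ, ∀ Φ : MvPolynomial (Bool ⊕ (ι × d × d)) ℂ,
      (∀ᶠ w : ℝ in Filter.atTop, MvPolynomial.eval (vr (w : ℂ) (Complex.log w)
        fun i => YH F.H F.N ((w : ℂ) - κ i)) Φ = 0) →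
      ∀ w : ℝ, R0 < w → ∀ g : ι → Matrix d d ℂ, (∀ i, g i ∈ F.Zc) →
        MvPolynomial.eval (vr (w : ℂ) (Complex.log w)
          fun i => YH F.H F.N ((w : ℂ) - κ i) * g i) Φ = 0

/-- FSA: formal relations persist -/
def FsaStmt : Prop :=
  ∀ (d : Type) [Fintype d] [DecidableEq d] (F : Sys d), ∃ D : ℕ,
    ∀ (ι : Type) [Fintype ι] [DecidableEq ι] (κ : ι → ℕ), Sep D κ → ∀ k : ℕ,
    ∃ R0 : ℝ, ∀ p : (ι × Fin k → d) → (ι × Fin k → d) → ℚ[X],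
      ∑ β, ∑ α, ((p β α : ℚ[X]) : PowerSeries ℚ) * ∏ s, F.T (κ s.1) (β s) (α s) = 0 →
      ∀ w : ℝ, R0 < w → ∀ g : ι → Matrix d d ℂ, (∀ i, g i ∈ F.Zc) →
        ∑ β, ∑ α, (p β α).eval₂ (algebraMap ℚ ℂ) ((w : ℂ)⁻¹) *
          ∏ s, (F.tv (κ s.1) w * g s.1) (β s) (α s) = 0

/-- NMA: numerical relations at `1/n` persist -/
def NmaStmt : Prop :=
  ∀ (d : Type) [Fintype d] [DecidableEq d] (F : Sys d), ∃ D : ℕ,
    ∀ (ι : Type) [Fintype ι] [DecidableEq ι] (κ : ι → ℕ), Sep D κ → ∀ k : ℕ,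
    ∃ n0 : ℕ, ∀ n : ℕ, n0 ≤ n → ∀ c : (ι × Fin k → d) → (ι × Fin k → d) → ℚ,
      ∑ β, ∑ α, (c β α : ℂ) * ∏ s, F.tv (κ s.1) n (β s) (α s) = 0 →
      ∀ g : ι → Matrix d d ℂ, (∀ i, g i ∈ F.Zc) →
        ∑ β, ∑ α, (c β α : ℂ) * ∏ s, (F.tv (κ s.1) n * g s.1) (β s) (α s) = 0

/-- ELA: elimination of the unknown rational structure; windows and density -/
def ElaStmt : Prop :=
  ∀ (d : Type) [Fintype d] [DecidableEq d] (F : Sys d) (k : ℕ) (A : Set (Fin k → d)),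
    ∃ (C : ℕ) (n1 : ℕ → ℕ), ∀ P : Matrix d d ℂ, IsUnit P.det →
    ∀ S : Set ℕ, (∀ n ∈ S, ∃ t : (Fin k → d) → ℚ,
      (∀ a ∈ A, ∑ β, (t β : ℂ) * ∏ j, F.per P n (a j) (β j) = 0) ∧
      ∃ g ∈ F.Zc, ∃ a ∈ A,
        ∑ β, (t β : ℂ) * ∏ j, (P *ᵥ (YH F.H F.N n * g) (a j)) (β j) ≠ 0) →
      (∀ K n : ℕ, n1 K ≤ n → Nat.card {m : ℕ // m ∈ S ∧ n < m + K ∧ m ≤ n} ≤ C) ∧ DensZero S

/-! ### Tensors and Hodge structures -/

/-- the form with coefficients `t` (of degree `k`), composed with the matrix `A` -/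
def tA {d : Type} [Fintype d] {k : ℕ} {R : Type} [CommRing R] (t : (Fin k → d) → R)
    (A : Matrix d d R) : (Fin k → d) → R := fun α => ∑ β, t β * ∏ j, A (β j) (α j)

/-- TEN: a rational Hodge form all of whose transforms by a group of integral isometries are Hodge
forms has a finite orbit -/
def TenStmt : Prop :=
  ∀ (d : Type) [Fintype d] [DecidableEq d] (w : ℕ) (E : Matrix d d ℚ)
    (V : ℕ → Submodule ℂ (d → ℂ)), 1 ≤ w → PolHodge w E V → ∀ (k : ℕ) (M : Set (Matrix d d ℤ)),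
    (∀ A ∈ M, (A.map (fun x => (x : ℚ)))ᵀ * E * A.map (fun x => (x : ℚ)) = E) →
    ∀ t : (Fin k → d) → ℚ, (∀ A ∈ M, ∀ (p : Fin k → ℕ) (x : Fin k → d → ℂ),
      (∀ j, x j ∈ V (p j)) → k * w < 2 * ∑ j, p j →
        ∑ β, (t β : ℂ) * ∏ j, (A.map (fun x => (x : ℂ)) *ᵥ x j) (β j) = 0) →
    {s : (Fin k → d) → ℚ | ∃ A ∈ M, s = tA t (A.map (fun x => (x : ℚ)))}.Finite

/-- TEU: a form with a finite orbit under `M` is invariant under the unipotent one parameter subgroups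
of the Zariski closure of `M` -/
def TeuStmt : Prop :=
  ∀ (d : Type) [Fintype d] [DecidableEq d] (M : Set (Matrix d d ℂ)) (k : ℕ)
    (t : (Fin k → d) → ℂ), {s : (Fin k → d) → ℂ | ∃ γ ∈ M, s = tA t γ}.Finite →
    ∀ X : Matrix d d ℂ, IsNilpotent X → (∀ s : ℂ, ue X s ∈ zclosure ℂ ℂ M) →
    ∀ s : ℂ, tA t (ue X s) = t

/-- LIE: unipotent one parameter subgroups which preserve all the Hodge forms of degree four and two
are contained in the Mumford-Tate group -/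
def LieStmt : Prop :=
  ∀ (d : Type) [Fintype d] [DecidableEq d] (w : ℕ) (E : Matrix d d ℚ)
    (V : ℕ → Submodule ℂ (d → ℂ)), 1 ≤ w → PolHodge w E V → ∀ X : Matrix d d ℂ, IsNilpotent X →
    (∀ s : ℂ, (ue X s)ᵀ * E.map (algebraMap ℚ ℂ) * ue X s = E.map (algebraMap ℚ ℂ)) →
    (∀ t : (Fin 4 → d) → ℚ, (∀ (p : Fin 4 → ℕ) (x : Fin 4 → d → ℂ), (∀ j, x j ∈ V (p j)) →
      2 * w ≠ ∑ j, p j → ∑ β, (t β : ℂ) * ∏ j, x j (β j) = 0) →
      ∀ s : ℂ, tA (fun β => (t β : ℂ)) (ue X s) = fun β => (t β : ℂ)) →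
    ∀ s : ℂ, ue X s ∈ mtGroup w V ℂ

/-- GRP: the group over `ℚ` generated by the homotheties and the unipotent one parameter subgroups -/
def GrpStmt : Prop :=
  ∀ (d : Type) [Fintype d] [DecidableEq d] (w : ℕ) (E : Matrix d d ℚ)
    (V : ℕ → Submodule ℂ (d → ℂ)), 1 ≤ w → PolHodge w E V → ∀ (F : Sys d) (P : Matrix d d ℂ),
    (∀ u ∈ Uni (F.Mo P), u ∈ mtGroup w V ℂ) →
    (∀ (K : Type u) [Field K] [CharZero K], F.Gm P K ⊆ mtGroup w V K) ∧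
    (hodgeTorus w V ⊆ F.Gm P ℂ → ∀ (K : Type u) [Field K] [CharZero K],
      mtGroup w V K = F.Gm P K)

/-! ### Main theorem -/

/-- MAA -/
def MainAStmt : Prop :=
  ∀ (d : Type) [Fintype d] [DecidableEq d] (F : Sys d) (w : ℕ) (lev : d → ℕ), 1 ≤ w →
    ∃ (C : ℕ) (n1 : ℕ → ℕ), ∀ P : Matrix d d ℂ, IsUnit P.det → F.IntM P →
    ∃ S : Set ℕ, DensZero S ∧
      (∀ K n : ℕ, n1 K ≤ n → Nat.card {m : ℕ // m ∈ S ∧ n < m + K ∧ m ≤ n} ≤ C) ∧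
      ∀ n : ℕ, n ∉ S → ∀ (E : Matrix d d ℚ) (V : ℕ → Submodule ℂ (d → ℂ)),
        PolHodge w E V → F.InvM P E → F.HasFil lev P n V →
        (∀ (K : Type u) [Field K] [CharZero K], F.Gm P K ⊆ mtGroup w V K) ∧
        (hodgeTorus w V ⊆ F.Gm P ℂ → (∀ (K : Type u) [Field K] [CharZero K],
          mtGroup w V K = F.Gm P K) ∧
          ∀ (ℓ : ℕ) [Fact ℓ.Prime] (Γ : Type v) [Group Γ] (ρ : Γ →* GL d ℚ_[ℓ])
            (K : Type u) [Field K] [CharZero K] [Algebra ℚ_[ℓ] K],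
            monodromy ρ K = F.Gm P K → monodromy ρ K = mtGroup w V K)

end Pool.Agent.MT100A
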