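import Pool.Agent.MT100A.Stmts

/-! The theorem of the fixed part as a property of a system with a Hodge filtration. -/

set_option autoImplicit false

namespace Pool.Agent.MT100A

open Matrix Pool.Agent.MT100 Pool.Agent.MT100G Pool.Agent.Helper78_MT

variable {d : Type} [Fintype d] [DecidableEq d]

/-- The rational tensor `t` of degree `k` is a Hodge tensor at the point `x`: it vanishes on the forms
with indices `a 0, ..., a (k-1)` if the sum of the levels is larger than `k w / 2`. -/
def Sys.HodgeAt (F : Sys d) (lev : d → ℕ) (P : Matrix d d ℂ) (w : ℕ) (x : ℂ) {k : ℕ}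
    (t : (Fin k → d) → ℚ) : Prop :=
  ∀ a : Fin k → d, k * w < 2 * ∑ j, lev (a j) → ∑ β, (t β : ℂ) * ∏ j, F.per P x (a j) (β j) = 0

/-- The theorem of the fixed part (Griffiths, Deligne, Schmid) for the points `x` with `Re x > R`: if a
rational tensor which is invariant under the unipotent one parameter subgroups of the Zariski closure
of the monodromy group is a Hodge tensor at one point, it is a Hodge tensor at every point. -/
def Sys.FixedPart (F : Sys d) (lev : d → ℕ) (P : Matrix d d ℂ) (w : ℕ) (R : ℝ) : Prop :=
  ∀ (k : ℕ) (t : (Fin k → d) → ℚ),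
    (∀ u ∈ Uni (F.Mo P), tA (fun β => (t β : ℂ)) u = fun β => (t β : ℂ)) →
    ∀ x y : ℂ, R < x.re → R < y.re → F.HodgeAt lev P w x t → F.HodgeAt lev P w y t

/-- `V` is a polarised Hodge structure of weight `w` on the flat sections with a polarisation which is
invariant under the monodromy and with the Hodge filtration given by the periods at `n`. -/
def Sys.Fibre (F : Sys d) (lev : d → ℕ) (P : Matrix d d ℂ) (w n : ℕ) (E : Matrix d d ℚ)
    (V : ℕ → Submodule ℂ (d → ℂ)) : Prop :=
  PolHodge w E V ∧ F.InvM P E ∧ F.HasFil lev P n V

end Pool.Agent.MT100A
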