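import Pool.Agent.MT100A.StmtsL

/-! Families of the first kind: the commutant of the connected monodromy group. -/

set_option autoImplicit false

namespace Pool.Agent.MT100A

open Matrix Pool.Agent.MT100 Pool.Agent.MT100G Pool.Agent.Helper78_MT

variable {d : Type} [Fintype d] [DecidableEq d]

/-- The commutant of the unipotent one parameter subgroups of the Zariski closure of `M`. -/
def Cmt (M : Set (Matrix d d ℂ)) : Set (Matrix d d ℂ) := {B | ∀ X ∈ H78.nilP M, B * X = X * B}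

/-- The commutant is of the first kind for the form `E`: an element of its centre which is an
infinitesimal similitude of `E` is a homothety. -/
def FirstKind (E : Matrix d d ℚ) (M : Set (Matrix d d ℂ)) : Prop :=
  ∀ A ∈ Cmt M, (∀ B ∈ Cmt M, A * B = B * A) →
    (∃ c : ℂ, Aᵀ * E.map (algebraMap ℚ ℂ) + E.map (algebraMap ℚ ℂ) * A =
      c • E.map (algebraMap ℚ ℂ)) → ∃ c : ℂ, A = c • (1 : Matrix d d ℂ)

/-- The Deligne torus normalises the unipotent one parameter subgroups of the Zariski closure of `M` and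
commutes with their commutant. -/
def TorusIn (w : ℕ) (V : ℕ → Submodule ℂ (d → ℂ)) (M : Set (Matrix d d ℂ)) : Prop :=
  H78.TorusNorm w V M ∧ ∀ T ∈ hodgeTorus w V, ∀ B ∈ Cmt M, T * B = B * T

/-- The representation `ρ` with coefficients in `ℚ_ℓ` is of geometric type for the family `F`, the
rational structure `P` and the form `E`: for some embedding of `ℚ_ℓ` in `ℂ`
(1) the image of `ρ` normalises the unipotent one parameter subgroups of the Zariski closure of the
monodromy group (the geometric monodromy group is normal) and consists of similitudes of `E`;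
(2) the image of some subgroup of finite index commutes with their commutant;
(3) for every subgroup of finite index the Zariski closure of its image contains these unipotents
(comparison theorem);
(4) some determinant is not a root of unity (weights). -/
def Sys.GeoE (F : Sys d) (P : Matrix d d ℂ) (E : Matrix d d ℚ) {ℓ : ℕ} [Fact ℓ.Prime]
    {Γ : Type*} [Group Γ] (ρ : Γ →* GL d ℚ_[ℓ]) : Prop :=
  ∃ ι : ℚ_[ℓ] →+* ℂ,
    (∀ γ : Γ, (∀ X ∈ H78.nilP (F.Mo P), (ρ γ : Matrix d d ℚ_[ℓ]).map ι * X *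
        ((ρ γ : Matrix d d ℚ_[ℓ]).map ι)⁻¹ ∈ H78.nilP (F.Mo P)) ∧
      ∃ c : ℂ, ((ρ γ : Matrix d d ℚ_[ℓ]).map ι)ᵀ * E.map (algebraMap ℚ ℂ) *
        (ρ γ : Matrix d d ℚ_[ℓ]).map ι = c • E.map (algebraMap ℚ ℂ)) ∧
    (∃ Γ' : Subgroup Γ, Γ'.FiniteIndex ∧ ∀ γ ∈ Γ', ∀ B ∈ Cmt (F.Mo P),
      (ρ γ : Matrix d d ℚ_[ℓ]).map ι * B = B * (ρ γ : Matrix d d ℚ_[ℓ]).map ι) ∧
    (∀ Γ' : Subgroup Γ, Γ'.FiniteIndex → ∀ f : MvPolynomial (d × d) ℚ_[ℓ],
      (∀ γ ∈ Γ', pev (ρ γ : Matrix d d ℚ_[ℓ]) f = 0) →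
      ∀ u ∈ Uni (F.Mo P), pev u (MvPolynomial.map ι f) = 0) ∧
    ∃ γ : Γ, ∀ m : ℕ, 0 < m → (ρ γ : Matrix d d ℚ_[ℓ]).det ^ m ≠ 1

end Pool.Agent.MT100A
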