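import Pool.Agent.MT100G.Defs

/-! Arbitrary one parameter families: no assumption on the monodromy group. -/

set_option autoImplicit false

namespace Pool.Agent.MT100A

open Matrix Pool.Agent.MT100 Pool.Agent.MT100G Pool.Agent.Helper78_MT

/-- A one parameter family: a system of G-type over `ℚ(w)` with unipotent (or trivial) monodromy at
infinity (`H` with inverse `K`, `N`, `q`, `B`). -/
structure Sys (d : Type) [Fintype d] [DecidableEq d] where
  H : Matrix d d (PowerSeries ℚ)
  K : Matrix d d (PowerSeries ℚ)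
  N : Matrix d d ℤ
  q : Polynomial ℤ
  B : Matrix d d (Polynomial ℤ)
  sys : GSys H K N q B

variable {d : Type} [Fintype d] [DecidableEq d]

/-- the monodromy group: the matrices `g` such that `YH` becomes `YH * g` by analytic continuation
along a closed chain of discs inside `U` -/
def Sys.mo (F : Sys d) (U : Set ℂ) : Set (Matrix d d ℂ) := mon F.H F.N F.q F.B U

/-- the Zariski closure (over `ℂ`) of the monodromy group -/
def Sys.Zc (F : Sys d) : Set (Matrix d d ℂ) := zclosure ℂ ℂ (F.mo Set.univ)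

/-- the vector of the periods of the form with index `a` at the point `w`, for the rational structure
given by `P` -/
noncomputable def Sys.per (F : Sys d) (P : Matrix d d ℂ) (w : ℂ) (a : d) : d → ℂ :=
  P *ᵥ YH F.H F.N w a

/-- The Hodge filtration of `V` is given by the periods at `w`; the forms with index `a` and
`p ≤ lev a` span `Fᵖ`. -/
def Sys.HasFil (F : Sys d) (lev : d → ℕ) (P : Matrix d d ℂ) (w : ℂ)
    (V : ℕ → Submodule ℂ (d → ℂ)) : Prop :=
  ∀ p : ℕ, (⨆ p' ∈ Set.Ici p, V p') = Submodule.span ℂ {y | ∃ a : d, p ≤ lev a ∧ y = F.per P w a}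

/-- the monodromy group acting on the space of the period vectors -/
def Sys.Mo (F : Sys d) (P : Matrix d d ℂ) : Set (Matrix d d ℂ) :=
  {γ | ∃ g ∈ F.mo Set.univ, γ = P * gᵀ * P⁻¹}

/-- the monodromy preserves the lattice of integral vectors -/
def Sys.IntM (F : Sys d) (P : Matrix d d ℂ) : Prop :=
  ∀ γ ∈ F.Mo P, ∃ A : Matrix d d ℤ, γ = A.map (fun x => (x : ℂ))

/-- the form `E` is invariant under the monodromy -/
def Sys.InvM (F : Sys d) (P : Matrix d d ℂ) (E : Matrix d d ℚ) : Prop :=
  ∀ γ ∈ F.Mo P, γᵀ * E.map (algebraMap ℚ ℂ) * γ = E.map (algebraMap ℚ ℂ)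

/-- the exponential `exp (s X)` of a nilpotent matrix -/
noncomputable def ue (X : Matrix d d ℂ) (s : ℂ) : Matrix d d ℂ :=
  ∑ t ∈ Finset.range (Fintype.card d), ((t.factorial : ℂ)⁻¹ * s ^ t) • X ^ t

/-- the elements of the unipotent one parameter subgroups of the Zariski closure of `M` -/
def Uni (M : Set (Matrix d d ℂ)) : Set (Matrix d d ℂ) :=
  {u | ∃ X : Matrix d d ℂ, IsNilpotent X ∧ u = ue X 1 ∧ ∀ s : ℂ, ue X s ∈ zclosure ℂ ℂ M}

/-- The `K`-points of the smallest algebraic subgroup over `ℚ` of `GL` which contains the homotheties and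
the unipotent one parameter subgroups of the Zariski closure of the monodromy group. -/
def Sys.Gm (F : Sys d) (P : Matrix d d ℂ) (K : Type*) [Field K] [CharZero K] :
    Set (Matrix d d K) :=
  {M | ∀ I : Set (MvPolynomial (d × d) ℚ), IsAlgSubgroup I →
    (∀ c : ℂ, c ≠ 0 → c • (1 : Matrix d d ℂ) ∈ zeros I ℂ) →
    (∀ u ∈ Uni (F.Mo P), u ∈ zeros I ℂ) → M ∈ zeros I K}

/-! ### Translates -/

/-- the translated fundamental matrix -/
noncomputable def Sys.T (F : Sys d) (κ : ℕ) : Matrix d d (PowerSeries ℚ) :=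
  TrG F.H F.N Polynomial.X κ

/-- its value at `1/w` -/
noncomputable def Sys.tv (F : Sys d) (κ : ℕ) (w : ℝ) : Matrix d d ℂ :=
  (F.T κ).map (fun f => ((ev f w⁻¹ : ℝ) : ℂ))

/-- the tuples of monodromy matrices of the translates -/
def Sys.tp (F : Sys d) {ι : Type} (κ : ι → ℕ) : Set ((ι → Matrix d d ℂ) × ℤ) :=
  tup F.H F.N F.q F.B κ

/-- the translates are at distance at least `D` from each other and from `0` -/
def Sep {ι : Type} (D : ℕ) (κ : ι → ℕ) : Prop :=
  (∀ i, D ≤ κ i) ∧ ∀ i j, i ≠ j → D ≤ κ i - κ j ∨ D ≤ κ j - κ i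

end Pool.Agent.MT100A
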