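import Pool.Agent.MT100A.Stmts
import Pool.Agent.Helper78_MTA.Irr
import Pool.Agent.MTL.Defs

/-! MT100-A, the l-adic side: representations of geometric type of a family whose connected
monodromy group is absolutely irreducible. -/

set_option autoImplicit false

namespace Pool.Agent.MT100A

open Matrix Polynomial Pool.Agent.MT100 Pool.Agent.MT100G Pool.Agent.Helper78_MT Pool.Agent.MTL
open Pool.Agent.MT100A.H78

universe u

variable {d : Type} [Fintype d] [DecidableEq d]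

/-- the group generated by the eigenvalues contains no root of unity except `1` -/
def Neat (h : Matrix d d ℂ) : Prop :=
  ∀ ζ ∈ Subgroup.closure {z : ℂˣ | h.charpoly.IsRoot (z : ℂ)}, ∀ m : ℕ, 0 < m → ζ ^ m = 1 → ζ = 1

/-- the logarithm of a unipotent matrix -/
noncomputable def lg (U : Matrix d d ℂ) : Matrix d d ℂ :=
  ∑ k ∈ Finset.range (Fintype.card d), ((-1 : ℂ) ^ k * ((k : ℂ) + 1)⁻¹) • (U - 1) ^ (k + 1)

/-- The representation `ρ` with coefficients in `ℚ_ℓ` is of geometric type for the family `F` and the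
rational structure `P`: for some embedding of `ℚ_ℓ` in `ℂ`
(1) the image of `ρ` normalises the unipotent one parameter subgroups of the Zariski closure of the
monodromy group (the geometric monodromy group is normal);
(2) for every subgroup of finite index the Zariski closure of its image contains these unipotents
(comparison theorem);
(3) some determinant is not a root of unity (weights). -/
def Sys.Geo (F : Sys d) (P : Matrix d d ℂ) {ℓ : ℕ} [Fact ℓ.Prime] {Γ : Type*} [Group Γ]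
    (ρ : Γ →* GL d ℚ_[ℓ]) : Prop :=
  ∃ ι : ℚ_[ℓ] →+* ℂ,
    (∀ (γ : Γ) (X : Matrix d d ℂ), X ∈ nilP (F.Mo P) →
      (ρ γ : Matrix d d ℚ_[ℓ]).map ι * X * ((ρ γ : Matrix d d ℚ_[ℓ]).map ι)⁻¹ ∈ nilP (F.Mo P)) ∧
    (∀ Γ' : Subgroup Γ, Γ'.FiniteIndex → ∀ f : MvPolynomial (d × d) ℚ_[ℓ],
      (∀ γ ∈ Γ', pev (ρ γ : Matrix d d ℚ_[ℓ]) f = 0) →
      ∀ u ∈ Uni (F.Mo P), pev u (MvPolynomial.map ι f) = 0) ∧
    ∃ γ : Γ, ∀ m : ℕ, 0 < m → (ρ γ : Matrix d d ℚ_[ℓ]).det ^ m ≠ 1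

/-- NEA: small elements of a compact group are neat -/
def NeaStmt : Prop :=
  ∀ (d : Type) [Fintype d] [DecidableEq d] (ℓ : ℕ) [Fact ℓ.Prime] (Γ : Type) [Group Γ]
    [TopologicalSpace Γ] [IsTopologicalGroup Γ] [CompactSpace Γ] (ρ : Γ →* GL d ℚ_[ℓ]),
    Continuous ρ → ∃ Γ' : Subgroup Γ, Γ'.FiniteIndex ∧ ∀ γ ∈ Γ', ∀ ι : ℚ_[ℓ] →+* ℂ,
      Neat ((ρ γ : Matrix d d ℚ_[ℓ]).map ι)

/-- JOR: multiplicative Jordan decomposition of a neat matrix, with the torus generated by it -/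
def JorStmt : Prop :=
  ∀ (d : Type) [Fintype d] [DecidableEq d] (h : Matrix d d ℂ), IsUnit h.det → Neat h →
    ∃ (r n : ℕ) (π : Fin n → Matrix d d ℂ) (m : Fin r → Fin n → ℤ) (x : Fin r → ℂ)
      (U : Matrix d d ℂ),
      (∀ a, π a * π a = π a) ∧ (∀ a b, a ≠ b → π a * π b = 0) ∧ ∑ a, π a = 1 ∧
      (∀ j, x j ≠ 0) ∧ IsNilpotent (U - 1) ∧ (∀ a, π a * U = U * π a) ∧
      h = (∑ a, (∏ j, x j ^ m j a) • π a) * U ∧
      ∀ W : Submodule ℂ (Matrix d d ℂ), (∀ A ∈ W, h * A * h⁻¹ ∈ W) →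
        (∀ A ∈ W, U * A * U⁻¹ ∈ W) ∧
        ∀ j, ∀ A ∈ W, (∑ a, (m j a : ℂ) • π a) * A - A * ∑ a, (m j a : ℂ) • π a ∈ W

/-- LOG: subspaces stable under a unipotent are stable under its logarithm -/
def LogStmt : Prop :=
  ∀ (d : Type) [Fintype d] [DecidableEq d] (U : Matrix d d ℂ), IsNilpotent (U - 1) →
    ∀ W : Submodule ℂ (Matrix d d ℂ), (∀ A ∈ W, U * A * U⁻¹ ∈ W) →
    ∀ A ∈ W, lg U * A - A * lg U ∈ W

/-- CUR: one parameter groups whose generators are in the Lie algebra of a closed group -/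
def CurStmt : Prop :=
  ∀ (d : Type) [Fintype d] [DecidableEq d] (G : Set (Matrix d d ℂ)), (1 : Matrix d d ℂ) ∈ G →
    (∀ (n : ℕ) (π : Fin n → Matrix d d ℂ) (m : Fin n → ℤ), (∀ a, π a * π a = π a) →
      (∀ a b, a ≠ b → π a * π b = 0) → ∑ a, π a = 1 → ∑ a, (m a : ℂ) • π a ∈ lieOf G →
      ∀ x : ℂ, x ≠ 0 → ∑ a, x ^ m a • π a ∈ zclosure ℂ ℂ G) ∧
    ∀ U : Matrix d d ℂ, IsNilpotent (U - 1) → lg U ∈ lieOf G → U ∈ zclosure ℂ ℂ G

/-- DES: descent of equations to `ℚ` -/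
def DesStmt : Prop :=
  ∀ (d : Type) [Fintype d] [DecidableEq d] (Z : Set (Matrix d d ℂ)),
    (∀ (τ : ℂ ≃+* ℂ), ∀ z ∈ Z, z.map τ ∈ Z) → ∀ (L : Type) [Field L] [CharZero L] (ι : L →+* ℂ)
    (f : MvPolynomial (d × d) L), (∀ z ∈ Z, pev z (MvPolynomial.map ι f) = 0) →
    f ∈ Submodule.span L (MvPolynomial.map (algebraMap ℚ L) ''
      {g : MvPolynomial (d × d) ℚ | ∀ z ∈ Z, pev z (MvPolynomial.map (algebraMap ℚ ℂ) g) = 0})

/-- LAD: if the connected monodromy group is absolutely irreducible, the connected algebraic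
monodromy group of a representation of geometric type is `Gm` -/
def LadStmt : Prop :=
  ∀ (d : Type) [Fintype d] [DecidableEq d] (F : Sys d) (P : Matrix d d ℂ), IsUnit P.det →
    F.IntM P → ∀ (w : ℕ) (E : Matrix d d ℚ) (V : ℕ → Submodule ℂ (d → ℂ)), 1 ≤ w →
    PolHodge w E V → F.InvM P E → AbsIrr (F.Mo P) → TorusNorm w V (F.Mo P) →
    ∀ (ℓ : ℕ) [Fact ℓ.Prime] (Γ : Type) [Group Γ] [TopologicalSpace Γ] [IsTopologicalGroup Γ]
      [CompactSpace Γ] (ρ : Γ →* GL d ℚ_[ℓ]), Continuous ρ → F.Geo P ρ →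
      ∀ (K : Type u) [Field K] [CharZero K] [Algebra ℚ_[ℓ] K], monodromy ρ K = F.Gm P K

end Pool.Agent.MT100A
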